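import Mathlib
import Pool.Agent.Helper255.DiamA

set_option autoImplicit false

open Set Module Topology Filter
open scoped LinearAlgebra.Projectivization Real

namespace Pool.Agent.Results.MP_cd78f9_gt.Quadratic

/-- Euclidean space `ℝᵐ`. -/
abbrev Rn (m : ℕ) := EuclideanSpace ℝ (Fin m)

/-- The elliptic space: the lines through the origin of `ℝⁿ`. -/
abbrev Ell (n : ℕ) := ℙ ℝ (Rn n)

/-- The distance of two lines: their smallest angle,
`arccos (|⟨u, v⟩| / (‖u‖ ‖v‖))` for vectors `u`, `v` spanning them. -/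
noncomputable def ang {n : ℕ} (x y : Ell n) : ℝ :=
  Real.arccos (|inner ℝ x.rep y.rep| / (‖x.rep‖ * ‖y.rep‖))

/-- Continuity of a map from the elliptic space (with the distance `ang`) to `ℝᵐ`. -/
def IsCont {n m : ℕ} (φ : Ell n → Rn m) : Prop :=
  ∀ x, ∀ ε > 0, ∃ δ > 0, ∀ y, ang x y < δ → ‖φ y - φ x‖ < ε

/-- `φ` preserves the set of diameters. -/
def PreservesDiameters {n m : ℕ} (φ : Ell n → Rn m) : Prop :=
  ∀ x y, ‖φ x - φ y‖ = Metric.diam (range φ) ↔ ang x y = π / 2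

/-- The dimensions `m` for which a continuous map preserving the set of diameters exists. -/
def dims (n : ℕ) : Set ℕ := {m | ∃ φ : Ell n → Rn m, IsCont φ ∧ PreservesDiameters φ}

/-- `M(n)`, the least such dimension. -/
noncomputable def M (n : ℕ) : ℕ := sInf (dims n)

lemma ang_mk {n : ℕ} (v w : Rn n) (hv : v ≠ 0) (hw : w ≠ 0) :
    ang (Projectivization.mk ℝ v hv) (Projectivization.mk ℝ w hw) =
      Real.arccos (|inner ℝ v w| / (‖v‖ * ‖w‖)) := by
  obtain ⟨a, ha⟩ := Projectivization.exists_smul_eq_mk_rep ℝ v hv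
  obtain ⟨b, hb⟩ := Projectivization.exists_smul_eq_mk_rep ℝ w hw
  unfold ang
  rw [← ha, ← hb]
  congr 1
  rw [Units.smul_def, Units.smul_def, inner_smul_left, inner_smul_right, norm_smul, norm_smul,
    abs_mul, abs_mul]
  have ha0 : |(a : ℝ)| ≠ 0 := abs_ne_zero.mpr a.ne_zero
  have hb0 : |(b : ℝ)| ≠ 0 := abs_ne_zero.mpr b.ne_zero
  have hv0 : ‖v‖ ≠ 0 := norm_ne_zero_iff.mpr hv
  have hw0 : ‖w‖ ≠ 0 := norm_ne_zero_iff.mpr hw
  simp only [conj_trivial, Real.norm_eq_abs]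
  field_simp

lemma ang_mk_self {n : ℕ} (v : Rn n) (hv : v ≠ 0) :
    ang (Projectivization.mk ℝ v hv) (Projectivization.mk ℝ v hv) = 0 := by
  rw [ang_mk, real_inner_self_eq_norm_sq, abs_of_nonneg (sq_nonneg _), ← sq,
    div_self (pow_ne_zero 2 (norm_ne_zero_iff.mpr hv)), Real.arccos_one]

lemma ang_mk_eq {n : ℕ} (v w : Rn n) (hv : v ≠ 0) (hw : w ≠ 0) :
    ang (Projectivization.mk ℝ v hv) (Projectivization.mk ℝ w hw) = π / 2 ↔
      inner ℝ v w = 0 := by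
  have hv0 : ‖v‖ ≠ 0 := norm_ne_zero_iff.mpr hv
  have hw0 : ‖w‖ ≠ 0 := norm_ne_zero_iff.mpr hw
  rw [ang_mk, Real.arccos_eq_pi_div_two, div_eq_zero_iff, abs_eq_zero]
  constructor
  · rintro (h | h)
    · exact h
    · exact absurd h (mul_ne_zero hv0 hw0)
  · exact Or.inl

/-- The map on nonzero vectors. -/
noncomputable def lft {n m : ℕ} (φ : Ell n → Rn m) (v : Rn n) : Rn m := by
  classical
  exact if h : v ≠ 0 then φ (Projectivization.mk ℝ v h) else 0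

lemma lft_eq {n m : ℕ} (φ : Ell n → Rn m) {v : Rn n} (h : v ≠ 0) :
    lft φ v = φ (Projectivization.mk ℝ v h) := by
  unfold lft
  simp [h]

lemma lft_cont {n m : ℕ} {φ : Ell n → Rn m} (hφ : IsCont φ) (v : Rn n) (hv : v ≠ 0) :
    ContinuousAt (lft φ) v := by
  rw [Metric.continuousAt_iff']
  intro ε hε
  obtain ⟨δ, hδ, h⟩ := hφ (Projectivization.mk ℝ v hv) ε hε
  have h1 : ContinuousAt (fun w : Rn n => Real.arccos (|inner ℝ v w| / (‖v‖ * ‖w‖))) v := by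
    apply Real.continuous_arccos.continuousAt.comp
    apply ContinuousAt.div
    · exact ((continuous_const.inner continuous_id).abs).continuousAt
    · exact (continuous_const.mul continuous_norm).continuousAt
    · exact mul_ne_zero (norm_ne_zero_iff.mpr hv) (norm_ne_zero_iff.mpr hv)
  have h2 : Real.arccos (|inner ℝ v v| / (‖v‖ * ‖v‖)) = 0 := by
    rw [← ang_mk v v hv hv, ang_mk_self]
  have h3 : ∀ᶠ w in 𝓝 v, Real.arccos (|inner ℝ v w| / (‖v‖ * ‖w‖)) < δ := by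
    apply h1.eventually_lt continuousAt_const
    rw [h2]; exact hδ
  have h4 : ∀ᶠ w in 𝓝 v, w ≠ 0 := isOpen_ne.mem_nhds hv
  filter_upwards [h3, h4] with w hw3 hw4
  rw [lft_eq φ hw4, lft_eq φ hv, dist_eq_norm]
  apply h
  rw [ang_mk]
  exact hw3

lemma range_bounded {n m : ℕ} {φ : Ell n → Rn m} (hφ : IsCont φ) :
    Bornology.IsBounded (range φ) := by
  have hc : ContinuousOn (lft φ) (Metric.sphere 0 1) := by
    intro v hv
    have hv1 : ‖v‖ = 1 := by simpa using hv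
    have : v ≠ 0 := by
      intro h; rw [h, norm_zero] at hv1; exact zero_ne_one hv1
    exact (lft_cont hφ v this).continuousWithinAt
  have hK := (isCompact_sphere (0 : Rn n) 1).image_of_continuousOn hc
  refine hK.isBounded.subset ?_
  rintro _ ⟨x, rfl⟩
  obtain ⟨v, hv, rfl⟩ : ∃ (v : Rn n) (hv : v ≠ 0), Projectivization.mk ℝ v hv = x :=
    ⟨x.rep, x.rep_nonzero, x.mk_rep⟩
  have hvn : ‖v‖ ≠ 0 := norm_ne_zero_iff.mpr hv
  have hw : ‖v‖⁻¹ • v ≠ 0 := smul_ne_zero (inv_ne_zero hvn) hv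
  refine ⟨‖v‖⁻¹ • v, ?_, ?_⟩
  · simp [norm_smul, inv_mul_cancel₀ hvn]
  · rw [lft_eq φ hw]
    congr 1
    rw [Projectivization.mk_eq_mk_iff']
    exact ⟨‖v‖⁻¹, rfl⟩

/-- The quadratic lower bound for every map. -/
lemma lower {n m : ℕ} (φ : Ell n → Rn m) (hφ : IsCont φ) (hd : PreservesDiameters φ) :
    n * (n + 1) ≤ 2 * m + 4 := by
  set D := Metric.diam (range φ) with hD
  have hle : ∀ x y, ‖φ x - φ y‖ ≤ D := by
    intro x y
    rw [← dist_eq_norm]
    exact Metric.dist_le_diam_of_mem (range_bounded hφ) ⟨x, rfl⟩ ⟨y, rfl⟩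
  have hD0 : 0 ≤ D := Metric.diam_nonneg
  let Φ : Rn n → ℝ × ℝ × Rn m := fun v => (1, ‖lft φ v‖ ^ 2, lft φ v)
  let ℓ : Rn n → (ℝ × ℝ × Rn m) →ₗ[ℝ] ℝ := fun y =>
    (D ^ 2 - ‖lft φ y‖ ^ 2) • LinearMap.fst ℝ ℝ (ℝ × Rn m) -
      (LinearMap.fst ℝ ℝ (Rn m)).comp (LinearMap.snd ℝ ℝ (ℝ × Rn m)) +
      (2 : ℝ) • ((innerₛₗ ℝ (lft φ y)).comp
        ((LinearMap.snd ℝ ℝ (Rn m)).comp (LinearMap.snd ℝ ℝ (ℝ × Rn m))))
  have hval : ∀ x y, ℓ y (Φ x) = D ^ 2 - ‖lft φ x - lft φ y‖ ^ 2 := by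
    intro x y
    have e : ℓ y (Φ x) = (D ^ 2 - ‖lft φ y‖ ^ 2) * 1 - ‖lft φ x‖ ^ 2 +
        2 * inner ℝ (lft φ y) (lft φ x) := rfl
    rw [e, @norm_sub_sq ℝ, real_inner_comm]
    simp only [RCLike.re_to_real]
    ring
  have key := Pool.Agent.Helper255.Diam.cone_bound Φ ℓ ?_ ?_ ?_ n ⊤ (by simp)
  · have h1 : finrank ℝ (Submodule.span ℝ (Φ '' Pool.Agent.Helper255.Diam.nz
        (⊤ : Submodule ℝ (Rn n)))) ≤ m + 2 := by
      refine (Submodule.finrank_le _).trans ?_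
      rw [finrank_prod, finrank_prod, finrank_self, finrank_euclideanSpace_fin]
      omega
    omega
  · intro x hx
    have h1 := lft_cont hφ x hx
    exact continuousAt_const.prodMk ((h1.norm.pow 2).prodMk h1)
  · intro x y hx hy
    rw [hval, lft_eq φ hx, lft_eq φ hy]
    have := hle (Projectivization.mk ℝ x hx) (Projectivization.mk ℝ y hy)
    have := pow_le_pow_left₀ (norm_nonneg _) this 2
    linarith
  · intro x y hx hy
    rw [hval, lft_eq φ hx, lft_eq φ hy, ← ang_mk_eq x y hx hy, ← hd, sub_eq_zero, eq_comm,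
      pow_left_inj₀ (norm_nonneg _) hD0 two_ne_zero]

/-- The map `x ↦ x ⊗ x`. -/
noncomputable def ver {n : ℕ} (x : Ell n) : EuclideanSpace ℝ (Fin n × Fin n) :=
  WithLp.toLp 2 fun p => x.rep p.1 * x.rep p.2 / ‖x.rep‖ ^ 2

lemma ver_inner {n : ℕ} (x y : Ell n) :
    inner ℝ (ver x) (ver y) = (|inner ℝ x.rep y.rep| / (‖x.rep‖ * ‖y.rep‖)) ^ 2 := by
  have hx : ‖x.rep‖ ≠ 0 := norm_ne_zero_iff.mpr x.rep_nonzero
  have hy : ‖y.rep‖ ≠ 0 := norm_ne_zero_iff.mpr y.rep_nonzero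
  rw [div_pow, sq_abs]
  have h1 : (inner ℝ x.rep y.rep : ℝ) = ∑ i, y.rep i * x.rep i := by
    simp [PiLp.inner_apply]
  rw [h1, sq (∑ i, y.rep i * x.rep i), Finset.sum_mul_sum, ← Fintype.sum_prod_type']
  simp only [ver, PiLp.inner_apply, RCLike.inner_apply, conj_trivial]
  rw [Finset.sum_div]
  apply Finset.sum_congr rfl
  intro p _
  field_simp

lemma ver_dist {n : ℕ} (x y : Ell n) :
    ‖ver x - ver y‖ ^ 2 = 2 * Real.sin (ang x y) ^ 2 := by
  have hx : ‖x.rep‖ ≠ 0 := norm_ne_zero_iff.mpr x.rep_nonzero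
  have hy : ‖y.rep‖ ≠ 0 := norm_ne_zero_iff.mpr y.rep_nonzero
  have hself : ∀ z : Ell n, ‖ver z‖ ^ 2 = 1 := by
    intro z
    have hz : ‖z.rep‖ ≠ 0 := norm_ne_zero_iff.mpr z.rep_nonzero
    rw [← real_inner_self_eq_norm_sq, ver_inner, real_inner_self_eq_norm_sq,
      abs_of_nonneg (sq_nonneg _), ← sq, div_self (pow_ne_zero 2 hz), one_pow]
  have hle : |inner ℝ x.rep y.rep| / (‖x.rep‖ * ‖y.rep‖) ≤ 1 := by
    rw [div_le_one (by positivity)]
    exact abs_real_inner_le_norm _ _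
  have hge : 0 ≤ |inner ℝ x.rep y.rep| / (‖x.rep‖ * ‖y.rep‖) := by positivity
  rw [@norm_sub_sq ℝ, hself, hself, RCLike.re_to_real, ver_inner, Real.sin_sq]
  unfold ang
  rw [Real.cos_arccos (by linarith) hle]
  ring

lemma ang_nonneg {n : ℕ} (x y : Ell n) : 0 ≤ ang x y := Real.arccos_nonneg _

lemma ang_le {n : ℕ} (x y : Ell n) : ang x y ≤ π / 2 := by
  unfold ang
  rw [Real.arccos_le_pi_div_two]
  positivity

lemma dims_nonempty {n : ℕ} (hn : 2 ≤ n) : n * n ∈ dims n := by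
  let L := LinearIsometryEquiv.piLpCongrLeft 2 ℝ ℝ (finProdFinEquiv : Fin n × Fin n ≃ Fin (n * n))
  let φ : Ell n → Rn (n * n) := fun x => L (ver x)
  have hd : ∀ x y, ‖φ x - φ y‖ = ‖ver x - ver y‖ := by
    intro x y
    simp only [φ, ← map_sub, LinearIsometryEquiv.norm_map]
  have hd2 : ∀ x y, ‖φ x - φ y‖ = Real.sqrt 2 * Real.sin (ang x y) := by
    intro x y
    have hs : 0 ≤ Real.sin (ang x y) :=
      Real.sin_nonneg_of_nonneg_of_le_pi (ang_nonneg x y)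
        ((ang_le x y).trans (by linarith [Real.pi_pos]))
    rw [hd, ← Real.sqrt_sq (norm_nonneg (ver x - ver y)), ver_dist,
      Real.sqrt_mul (by norm_num), Real.sqrt_sq hs]
  have hdle : ∀ x y, ‖φ x - φ y‖ ≤ Real.sqrt 2 := by
    intro x y
    rw [hd2]
    have := Real.sin_le_one (ang x y)
    have h2 : 0 ≤ Real.sqrt 2 := Real.sqrt_nonneg 2
    nlinarith
  -- an orthogonal pair
  obtain ⟨x0, y0, h0⟩ : ∃ x y : Ell n, ang x y = π / 2 := by
    let v : Rn n := EuclideanSpace.single ⟨0, by omega⟩ 1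
    let w : Rn n := EuclideanSpace.single ⟨1, by omega⟩ 1
    have hv : v ≠ 0 := by
      intro h
      have : ‖v‖ = 1 := by simp [v]
      rw [h, norm_zero] at this; exact zero_ne_one this
    have hw : w ≠ 0 := by
      intro h
      have : ‖w‖ = 1 := by simp [w]
      rw [h, norm_zero] at this; exact zero_ne_one this
    refine ⟨Projectivization.mk ℝ v hv, Projectivization.mk ℝ w hw, ?_⟩
    rw [ang_mk_eq]
    simp [v, w, EuclideanSpace.inner_single_left]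
  have hdiam : Metric.diam (range φ) = Real.sqrt 2 := by
    apply le_antisymm
    · apply Metric.diam_le_of_forall_dist_le (Real.sqrt_nonneg 2)
      rintro _ ⟨x, rfl⟩ _ ⟨y, rfl⟩
      rw [dist_eq_norm]
      exact hdle x y
    · have hb : Bornology.IsBounded (range φ) := by
        rw [Metric.isBounded_iff]
        refine ⟨Real.sqrt 2, ?_⟩
        rintro _ ⟨x, rfl⟩ _ ⟨y, rfl⟩
        rw [dist_eq_norm]
        exact hdle x y
      have := Metric.dist_le_diam_of_mem hb ⟨x0, rfl⟩ ⟨y0, rfl⟩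
      rwa [dist_eq_norm, hd2, h0, Real.sin_pi_div_two, mul_one] at this
  refine ⟨φ, ?_, ?_⟩
  · intro x ε hε
    have hc : Continuous (fun t : ℝ => Real.sqrt 2 * Real.sin t) := by fun_prop
    have h1 := Metric.continuousAt_iff.mp (hc.continuousAt (x := 0)) ε hε
    obtain ⟨δ, hδ, h⟩ := h1
    refine ⟨δ, hδ, fun y hy => ?_⟩
    have h2 := h (x := ang x y) (by
      rw [Real.dist_eq, sub_zero, abs_of_nonneg (ang_nonneg x y)]; exact hy)
    rw [Real.dist_eq, Real.sin_zero, mul_zero, sub_zero, ← hd2 x y, abs_norm] at h2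
    rwa [norm_sub_rev]
  · intro x y
    rw [hdiam, hd2]
    have h2 : 0 < Real.sqrt 2 := Real.sqrt_pos.mpr (by norm_num)
    constructor
    · intro h
      have h3 : Real.sin (ang x y) = 1 := by
        have : Real.sqrt 2 * Real.sin (ang x y) = Real.sqrt 2 * 1 := by rw [h, mul_one]
        exact mul_left_cancel₀ h2.ne' this
      have h4 : Real.sin (ang x y) = Real.sin (π / 2) := by rw [h3, Real.sin_pi_div_two]
      exact Real.injOn_sin ⟨by linarith [ang_nonneg x y, Real.pi_pos], ang_le x y⟩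
        ⟨by linarith [Real.pi_pos], le_rfl⟩ h4
    · intro h
      rw [h, Real.sin_pi_div_two, mul_one]

/-- `n(n+1)/2 - 2 ≤ M(n)` for all `n ≥ 2`; in particular `M(n) ≥ n²/4`, and `M(n)/n²` does not
tend to `0`. -/
theorem result :
    (∀ n : ℕ, 2 ≤ n → (dims n).Nonempty ∧ n * (n + 1) ≤ 2 * M n + 4) ∧
    (∀ n : ℕ, 2 ≤ n → (1 / 4 : ℝ) * (n : ℝ) ^ 2 ≤ M n) ∧
    ¬ Tendsto (fun n : ℕ => (M n : ℝ) / (n : ℝ) ^ 2) atTop (𝓝 0) := by
  have h1 : ∀ n : ℕ, 2 ≤ n → (dims n).Nonempty ∧ n * (n + 1) ≤ 2 * M n + 4 := by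
    intro n hn
    have hne : (dims n).Nonempty := ⟨_, dims_nonempty hn⟩
    obtain ⟨φ, hφ, hd⟩ := Nat.sInf_mem hne
    exact ⟨hne, lower φ hφ hd⟩
  have h2 : ∀ n : ℕ, 2 ≤ n → (1 / 4 : ℝ) * (n : ℝ) ^ 2 ≤ M n := by
    intro n hn
    have h := (h1 n hn).2
    have h' : (n : ℝ) * (n + 1) ≤ 2 * M n + 4 := by exact_mod_cast h
    have hn' : (2 : ℝ) ≤ n := by exact_mod_cast hn
    nlinarith
  refine ⟨h1, h2, ?_⟩
  intro ht
  have h3 : ∀ᶠ n : ℕ in atTop, (M n : ℝ) / (n : ℝ) ^ 2 < 1 / 4 :=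
    ht.eventually (gt_mem_nhds (by norm_num))
  obtain ⟨n, hn1, hn2⟩ := (h3.and (eventually_ge_atTop 2)).exists
  have h4 := h2 n hn2
  have hn' : (0 : ℝ) < (n : ℝ) ^ 2 := by
    have : (2 : ℝ) ≤ n := by exact_mod_cast hn2
    positivity
  rw [div_lt_iff₀ hn'] at hn1
  linarith

end Pool.Agent.Results.MP_cd78f9_gt.Quadratic
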